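import Mathlib
import Pool.Agent.H.MP_836feb_al.Main

set_option autoImplicit false

namespace Pool.Agent.Results.MP_836feb_al.Q1

open Pool.Agent.H.MP_836feb_al

theorem result :
    (∀ n : ℕ, 1 < n → ¬ IsPrimePow n → ∀ (ι : Type) [Nonempty ι], HasNonfreeRetract ι n) ∧
    ∀ N : ℕ, ∃ n ≥ N, Odd n ∧ ∀ (ι : Type) [Nonempty ι], HasNonfreeRetract ι n :=
  ⟨fun _ h1 h ι _ => main' h1 h ι, fun N => ⟨3 * (6 * N + 5), by omega, ⟨9 * N + 7, by omega⟩,
    fun ι _ => main (by norm_num) (by omega)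
      ((Nat.Prime.coprime_iff_not_dvd Nat.prime_three).2 (by omega)) ι⟩⟩

end Pool.Agent.Results.MP_836feb_al.Q1
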